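import Pool.Agent.Y106.Fib.Defs
import Pool.Agent.Y140.Fib.Defs2
import Pool.Agent.H914R2.LefDefs

/-!
# The fixed part of the cohomology of a fibre: definitions
-/

open CategoryTheory AlgebraicGeometry

universe u v

namespace Pool.Agent.Y106.FP

section Alg

variable {K A B C : Type*} [Field K] [Ring A] [Ring B] [Ring C] [Algebra K A] [Algebra K B]
  [Algebra K C]

/-- The map `T` sends `f x` to `f' x` for all `x`, and it kills the orthogonal complement of the
image of `f`. -/
structure Transports (f : A →ₐ[K] B) (f' : A →ₐ[K] C) (tr : B →ₗ[K] K) (T : B →ₗ[K] C) :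
    Prop where
  apply : ∀ x, T (f x) = f' x
  orth : ∀ y, (∀ x, tr (y * f x) = 0) → T y = 0

/-- The image of `f`, as a subspace. -/
def img (f : A →ₐ[K] B) : Submodule K B := LinearMap.range f.toLinearMap

/-- The map `T` is the operator `Λ` attached to `L` on the image of `f`, and it kills the orthogonal
complement of the image. -/
structure IsLamOnImage (gr : ℕ → Submodule K B) (n : ℕ) (f : A →ₐ[K] B) (tr : B →ₗ[K] K)
    (L T : Module.End K B) : Prop where
  lam : Pool.Agent.H914.IsLam (fun j => gr j ⊓ img f) n L T
  orth : ∀ y, (∀ x, tr (y * f x) = 0) → T y = 0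

end Alg

open Pool.Agent.H914 Pool.Agent.W498.Dom Pool.Agent.Y106.Fib VarClass Obj WeilCohomology

variable {k : Type u} [Field k] {𝒱 : VarClass k} {ops : CycleOps 𝒱}
  {W : WeilCohomology.{u, v} ops} {Z S F F' : 𝒱.Obj} {g : Z ⟶ S} {G : S.Cycles} {E : Z.Cycles}

/-- The class `g^* G ^ (dim S)` on `Z`, a multiple of the class of a fibre of `g : Z ⟶ S`. -/
noncomputable def fibreClass (W : WeilCohomology.{u, v} ops) {Z S : 𝒱.Obj} (g : Z ⟶ S)
    (G : S.Cycles) : W.H Z :=
  W.map g (W.cl S G ^ S.dim)

/-- The pull-back `i^*` is zero on the part of degree `j` of the piece `P_p` of the perverse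
decomposition unless `p = j + dim S`. -/
def RestrictsToStalk (Q : PerverseDecomposition W g G E) (i : F ⟶ Z) : Prop :=
  VanishesOff Q.piece (W.gr Z) S.dim (W.map i).toRingHom

/-- The class `g^* G ^ (dim S)` is a rational multiple of the class `i_* 1` of `F`. -/
def IsFibreClass (W : WeilCohomology.{u, v} ops) (g : Z ⟶ S) (G : S.Cycles) (i : F ⟶ Z) : Prop :=
  ∃ N : ℚ, fibreClass W g G = (N : W.K) • W.push i 1

/-- The morphism `i : F ⟶ Z` is like the inclusion of a smooth fibre of `g : Z ⟶ S`, over a point of
`S` above which `g` is smooth. The class `g^* G ^ (dim S)` is a multiple of the class of `F` (the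
factor is the degree of `G ^ (dim S)`). The pull-back `i^*` factors through the stalk of the direct
image at the point: near the point the perverse cohomology sheaf `R_p` of the direct image is a
local system placed in degree `- dim S`, so that the contribution `H^(j - p)(S, R_p)` to `H^j(Z)`
restricts to zero unless `p = j + dim S`. -/
structure IsFibre (Q : PerverseDecomposition W g G E) (i : F ⟶ Z) : Prop where
  dim_eq : Z.dim = F.dim + S.dim
  vanishes : RestrictsToStalk Q i
  class_eq : IsFibreClass W g G i

/-- The fixed part of the cohomology of `F`: the image of the cohomology of the total space `Z`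
(by the theorem of the fixed part these are the classes invariant under the monodromy). -/
def fixedPart (W : WeilCohomology.{u, v} ops) (i : F ⟶ Z) : Submodule W.K (W.H F) :=
  img (W.map i)

/-- A cycle with rational coefficients on `F × F'` induces the transport of the fixed part of the
cohomology of the fibre `F` to the fixed part of the cohomology of the fibre `F'`, and zero on the
orthogonal complement of the fixed part. -/
def TransportAlgebraic (W : WeilCohomology.{u, v} ops) (i : F ⟶ Z) (i' : F' ⟶ Z) : Prop :=
  ∃ z, (F.prod F').IsCyc F.dim z ∧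
    Transports (W.map i) (W.map i') (W.tr F) (W.corr (W.cl (F.prod F') z))

/-- A cycle with rational coefficients on `F × F` induces the operator `Λ`, attached to the divisor
`D`, on the fixed part of the cohomology of `F`, and zero on its orthogonal complement. -/
def LambdaOnFixedPart (W : WeilCohomology.{u, v} ops) (i : F ⟶ Z) (D : F.Cycles) : Prop :=
  ∃ z, (F.prod F).IsCyc (F.dim - 1) z ∧
    IsLamOnImage (W.gr F) F.dim (W.map i) (W.tr F) (LinearMap.mulLeft W.K (W.cl F D))
      (W.corr (W.cl (F.prod F) z))

/-- All cohomology classes of `F` of degree less than the dimension of `F` belong to the fixed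
part. -/
def ConstantBelowMiddle (W : WeilCohomology.{u, v} ops) (i : F ⟶ Z) : Prop :=
  ∀ j < F.dim, W.gr F j ≤ fixedPart W i

end Pool.Agent.Y106.FP
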