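import Pool.Agent.Y106.FP.Defs
import Pool.Agent.Y106.Fib.Main
import Pool.Agent.Y140.Fib.Main

/-!
# The theorem of the fixed part for algebraic cycles
-/

open CategoryTheory AlgebraicGeometry

set_option linter.unusedSectionVars false

universe u v

namespace Pool.Agent.Y106.FP

open Pool.Agent.H914 Pool.Agent.H447 Pool.Agent.W498.Dom Pool.Agent.Y106.Fib Pool.Agent.Y140.Fib
  VarClass Obj WeilCohomology Pool.Agent.W534 Pool.Agent.W550.B

variable {k : Type u} [Field k] {𝒱 : VarClass k} {ops : CycleOps 𝒱}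
  {W : WeilCohomology.{u, v} ops} {Z S F F' : 𝒱.Obj} {g : Z ⟶ S} {G : S.Cycles} {E : Z.Cycles}
  {Q : PerverseDecomposition W g G E} {i : F ⟶ Z} {i' : F' ⟶ Z}

/-- The restriction to a fibre in the sense of `FibreRestriction`. -/
def IsFibre.restriction (h : IsFibre Q i) : FibreRestriction Q W F where
  σ := RingHom.id _
  ρ := (W.map i).toRingHom
  isGradedHom := ⟨fun c x => map_smul (W.map i) c x, fun _ _ hx => W.map_mem i hx⟩
  mapsCycles := fun _ z hz => ⟨ops.pull i z, ops.pull_mem i hz, W.cl_pull i z⟩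
  vanishes := h.vanishes
  dim_eq := h.dim_eq

lemma IsFibre.restriction_ρ (h : IsFibre Q i) (x : W.H Z) : h.restriction.ρ x = W.map i x := rfl

section

variable (hG : S.IsCyc 1 G) (hE : Z.IsCyc 1 E)

include hG hE

/-- The pull-back sees only the part of lowest base weight. -/
lemma map_low (h : IsFibre Q i) {j : ℕ} {x : W.H Z} (hx : x ∈ W.gr Z j) :
    W.map i x = W.map i (proj Q.isInternal (j + S.dim) x) :=
  h.restriction.ρ_low hG hE hx

/-- The pull-back kills the lower steps of the perverse filtration. -/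
lemma map_upTo (h : IsFibre Q i) {j : ℕ} {x : W.H Z} (hx : x ∈ W.gr Z j) {b : ℤ}
    (hxb : x ∈ upTo Q.piece b) (hb : b < ((j + S.dim : ℕ) : ℤ)) : W.map i x = 0 := by
  have T := setup Q hG hE rfl
  rw [map_low hG hE h hx, (mem_upTo T.iP T.bP).1 hxb _ hb, map_zero]

lemma hop_nilp : hop W g G ^ (S.dim + 1) = 0 := by
  apply LinearMap.ext
  intro x
  rw [hop_pow]
  have h1 := xi_mem (W := W) hG (S.dim + 1)
  rw [W.gr_eq_bot S _ (by omega)] at h1
  rw [(Submodule.mem_bot _).1 h1, map_zero, zero_mul, LinearMap.zero_apply]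

lemma fibreClass_mul (x : W.H Z) : fibreClass W g G * x = (hop W g G ^ S.dim) x := by
  rw [hop_pow]; rfl

/-- The pull-back is injective on the part of lowest base weight. -/
lemma map_inj_low (h : IsFibre Q i) {j : ℕ} {x : W.H Z} (hx : x ∈ W.gr Z j)
    (hxP : x ∈ Q.piece (j + S.dim)) (h0 : W.map i x = 0) : x = 0 := by
  have T := setup Q hG hE rfl
  obtain ⟨N, hN⟩ := h.class_eq
  apply (T.hl (j + S.dim) j (by omega)).1 _ ⟨hxP, hx⟩
  rw [show j + S.dim - j = S.dim by omega, ← fibreClass_mul hG hE, hN, smul_mul_assoc]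
  have h1 := W.push_mul i 1 x
  rw [← h1, h0, mul_zero, map_zero, smul_zero]

/-- The powers of the base operator. -/
lemma base_pow {T : Module.End W.K (W.H Z)} (hT : InducesBaseLam (W.gr Z) Q.piece (hop W g G) T)
    {j : ℕ} {a : W.H Z} (ha : a ∈ Q.piece (j + S.dim)) (haj : a ∈ W.gr Z j) (m : ℕ)
    (hm : m ≤ S.dim) :
    (T ^ m) ((hop W g G ^ m) a) - a ∈ upTo Q.piece (((j + S.dim : ℕ) : ℤ) - 1) := by
  have hS := setup Q hG hE rfl
  have h0 : (hop W g G ^ (j + S.dim - j + 1)) a = 0 := by
    rw [show j + S.dim - j + 1 = S.dim + 1 by omega, hop_nilp hG hE, LinearMap.zero_apply]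
  have h1 := (hT.2 (j + S.dim) j (by omega) a (piece_le_upTo le_rfl ha) haj
    (by rw [h0]; exact Submodule.zero_mem _)).2
  induction m with
  | zero => simp
  | succ m ih =>
    have h2 := h1 m (by omega)
    have h3 : ∀ n : ℕ, Shifts Q.piece 0 (T ^ n) := by
      intro n
      induction n with
      | zero => rw [pow_zero]; exact shifts_one
      | succ n ihn => rw [pow_succ]; exact (ihn.mul hT.1).cast (add_zero 0)
    have h4 := h3 m _ _ h2
    have h5 := ih (by omega)
    have e : (T ^ (m + 1)) ((hop W g G ^ (m + 1)) a) - a =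
        (T ^ m) (T ((hop W g G ^ (m + 1)) a) - (hop W g G ^ m) a) +
          ((T ^ m) ((hop W g G ^ m) a) - a) := by
      rw [pow_succ T, Module.End.mul_apply, map_sub]
      abel
    rw [e]
    exact Submodule.add_mem _ (by rwa [add_zero] at h4) h5

/-- The base operator inverts the multiplication by the class of the fibre. -/
lemma base_inv {T : Module.End W.K (W.H Z)} (hT : InducesBaseLam (W.gr Z) Q.piece (hop W g G) T)
    (hTd : IsHom (W.gr Z) (-2) T) {j : ℕ} {x : W.H Z} (hx : x ∈ W.gr Z j) :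
    (T ^ S.dim) (fibreClass W g G * x) ∈ W.gr Z j ∧
      (T ^ S.dim) (fibreClass W g G * x) - proj Q.isInternal (j + S.dim) x ∈
        upTo Q.piece (((j + S.dim : ℕ) : ℤ) - 1) := by
  have hS := setup Q hG hE rfl
  rw [fibreClass_mul hG hE]
  constructor
  · have h1 := pow_L_mem hS.hgr hx S.dim
    have h2 := hTd.pow S.dim ((j + 2 * S.dim : ℕ) : ℤ) _ (by rw [grZ_natCast]; exact h1)
    rw [show ((j + 2 * S.dim : ℕ) : ℤ) + (S.dim : ℤ) * -2 = (j : ℤ) by push_cast; ring,
      grZ_natCast] at h2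
    exact h2
  · rw [h_pow_low hS (hop_nilp hG hE) hx]
    exact base_pow hG hE hT (proj_mem _ _ _) (hS.projP_gr hx _) S.dim le_rfl

/-- The transport. -/
lemma map_base_inv (h : IsFibre Q i) {T : Module.End W.K (W.H Z)}
    (hT : InducesBaseLam (W.gr Z) Q.piece (hop W g G) T) (hTd : IsHom (W.gr Z) (-2) T)
    (x : W.H Z) : W.map i ((T ^ S.dim) (fibreClass W g G * x)) = W.map i x := by
  refine gr_induction (W.isInternal Z)
    (p := fun x => W.map i ((T ^ S.dim) (fibreClass W g G * x)) = W.map i x) ?_ ?_ x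
  · intro j x hx
    obtain ⟨h1, h2⟩ := base_inv hG hE hT hTd hx
    have hS := setup Q hG hE rfl
    rw [map_low hG hE h hx, ← sub_eq_zero, ← map_sub]
    exact map_upTo hG hE h (Submodule.sub_mem _ h1 (hS.projP_gr hx _)) h2 (by omega)
  · intro a b ha hb
    rw [mul_add, map_add, map_add, ha, hb, map_add]

omit hG hE in
/-- The push-forward kills the orthogonal complement of the fixed part. -/
lemma push_eq_zero {y : W.H F} (hy : ∀ x, W.tr F (y * W.map i x) = 0) : W.push i y = 0 := by
  apply W.nondeg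
  intro x
  rw [W.tr_push]
  exact hy x

omit hG hE in
lemma push_map (h : IsFibre Q i) : ∃ N : ℚ, ∀ x : W.H Z,
    (N : W.K) • W.push i (W.map i x) = fibreClass W g G * x := by
  obtain ⟨N, hN⟩ := h.class_eq
  refine ⟨N, fun x => ?_⟩
  have h1 := W.push_mul i 1 x
  rw [one_mul] at h1
  rw [hN, h1, smul_mul_assoc]

/-- **The transport of the fixed part is algebraic.** -/
theorem transportAlgebraic (h : IsFibre Q i) (h' : IsFibre Q i') {T : Module.End W.K (W.H Z)}
    (hT : InducesBaseLam (W.gr Z) Q.piece (hop W g G) T) (hTq : ROp W Z (-1) T) :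
    TransportAlgebraic W i i' := by
  obtain ⟨N, hN⟩ := push_map h
  have hTd : IsHom (W.gr Z) (-2) T := by
    have := rop_opAlg.hom hTq
    simpa using this
  have h1 : ROp W Z (-(S.dim : ℤ)) (T ^ S.dim) :=
    rop_opAlg.cast (rop_opAlg.pow hTq S.dim) (by ring)
  have h2 : QOp W F F' 0 ((N : W.K) • ((W.map i').toLinearMap ∘ₗ ((T ^ S.dim) ∘ₗ W.push i))) := by
    apply QOp.smul
    have h3 := (qop_pull i').comp ((rop_iff.1 h1).comp (qop_push (W := W) i))
    apply h3.cast
    have := h.dim_eq
    omega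
  obtain ⟨z, hz, hz'⟩ := h2.exists_cyc (p := F.dim) (by simp)
  refine ⟨z, hz, ?_⟩
  rw [hz']
  constructor
  · intro x
    rw [LinearMap.smul_apply, LinearMap.comp_apply, LinearMap.comp_apply, ← map_smul, ← map_smul,
      hN]
    exact map_base_inv hG hE h' hT hTd x
  · intro y hy
    rw [LinearMap.smul_apply, LinearMap.comp_apply, LinearMap.comp_apply, push_eq_zero hy, map_zero,
      map_zero, smul_zero]

/-- Elements of the fixed part lift to the part of lowest base weight. -/
lemma exists_lift (h : IsFibre Q i) {j : ℕ} {a : W.H F} (ha : a ∈ W.gr F j)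
    (haF : a ∈ fixedPart W i) :
    ∃ x ∈ Q.piece (j + S.dim), x ∈ W.gr Z j ∧ W.map i x = a := by
  have hS := setup Q hG hE rfl
  obtain ⟨x, rfl⟩ := haF
  have h1 : W.map i (proj (W.isInternal Z) j x) = W.map i x := by
    have h2 : W.map i x = ∑ l ∈ Finset.range (2 * Z.dim + 1),
        W.map i (proj (W.isInternal Z) l x) := by
      conv_lhs => rw [hS.sumG x]
      rw [map_sum]
    have h3 : proj (W.isInternal F) j (W.map i x) = W.map i x := proj_same _ ha
    rw [h2] at h3
    rw [map_sum] at h3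
    rw [h2, ← h3]
    by_cases hj : j < 2 * Z.dim + 1
    · rw [Finset.sum_eq_single j]
      · rw [proj_same _ (W.map_mem i (proj_mem _ _ _))]
      · intro l _ hl
        exact proj_ne _ (W.map_mem i (proj_mem _ _ _)) hl
      · intro h'; exact absurd (Finset.mem_range.2 hj) h'
    · rw [Finset.sum_eq_zero]
      · have h4 := proj_mem (W.isInternal Z) j x
        rw [W.gr_eq_bot Z _ (by omega)] at h4
        rw [(Submodule.mem_bot _).1 h4, map_zero]
      · intro l hl
        exact proj_ne _ (W.map_mem i (proj_mem _ _ _))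
          (by have := Finset.mem_range.1 hl; omega)
  have h2 := proj_mem (W.isInternal Z) j x
  refine ⟨proj Q.isInternal (j + S.dim) (proj (W.isInternal Z) j x), proj_mem _ _ _,
    hS.projP_gr h2 _, ?_⟩
  rw [← map_low hG hE h h2, h1]
  rfl

end

end Pool.Agent.Y106.FP
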