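import Pool.Agent.Y106.FP.Lam

/-!
# Fibres whose cohomology is constant below the middle degree
-/

open CategoryTheory AlgebraicGeometry

set_option linter.unusedSectionVars false

universe u v

namespace Pool.Agent.Y106.FP

open Pool.Agent.H914 Pool.Agent.H447 Pool.Agent.W498.Dom Pool.Agent.Y106.Fib Pool.Agent.Y140.Fib
  VarClass Obj WeilCohomology Pool.Agent.W534 Pool.Agent.W550.B

section Alg

variable {K A : Type*} [Field K] [Ring A] [Algebra K A]

/-- A nondegenerate subspace has an orthogonal complement. -/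
lemma exists_sub_orth [Module.Finite K A] {tr : A →ₗ[K] K} (V : Submodule K A)
    (hV : ∀ v ∈ V, (∀ x ∈ V, tr (v * x) = 0) → v = 0) (a : A) :
    ∃ v ∈ V, ∀ x ∈ V, tr ((a - v) * x) = 0 := by
  let φ : A →ₗ[K] Module.Dual K V :=
    { toFun := fun a =>
        { toFun := fun x => tr (a * x)
          map_add' := fun x y => by rw [Submodule.coe_add, mul_add, map_add]
          map_smul' := fun c x => by
            rw [Submodule.coe_smul, mul_smul_comm, map_smul, RingHom.id_apply] }
      map_add' := fun a b => by ext x; simp [add_mul]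
      map_smul' := fun c a => by ext x; simp }
  have hφ : ∀ a x, φ a x = tr (a * x) := fun _ _ => rfl
  have hinj : Function.Injective (φ ∘ₗ V.subtype) := by
    rw [injective_iff_map_eq_zero]
    intro v hv
    apply Subtype.ext
    apply hV _ v.2
    intro x hx
    have := congrArg (fun f => f ⟨x, hx⟩) hv
    exact this
  have hsurj : Function.Surjective (φ ∘ₗ V.subtype) :=
    (LinearMap.injective_iff_surjective_of_finrank_eq_finrank
      (Subspace.dual_finrank_eq (K := K) (V := V)).symm).1 hinj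
  obtain ⟨v, hv⟩ := hsurj (φ a)
  refine ⟨v, v.2, fun x hx => ?_⟩
  have := congrArg (fun f => f ⟨x, hx⟩) hv
  simp only [LinearMap.comp_apply, hφ, Submodule.subtype_apply] at this
  rw [sub_mul, map_sub, this, sub_self]

end Alg

variable {k : Type u} [Field k] {𝒱 : VarClass k} {ops : CycleOps 𝒱}
  {W : WeilCohomology.{u, v} ops} {Z S F F' : 𝒱.Obj} {g : Z ⟶ S} {G : S.Cycles} {E : Z.Cycles}
  {Q : PerverseDecomposition W g G E} {i : F ⟶ Z} {i' : F' ⟶ Z}

/-- The class of a cycle with rational coefficients on `F` which belongs to the fixed part is the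
restriction of the class of a cycle with rational coefficients on `Z`. -/
def CyclesExtend (W : WeilCohomology.{u, v} ops) (i : F ⟶ Z) : Prop :=
  ∀ p z, F.IsCyc p z → W.cl F z ∈ fixedPart W i →
    ∃ w, Z.IsCyc p w ∧ W.map i (W.cl Z w) = W.cl F z

/-- Operators induced by rational cycles preserve the classes of rational cycles. -/
lemma qop_cl {X Y : 𝒱.Obj} {d : ℤ} {φ : W.H X →ₗ[W.K] W.H Y} (h : QOp W X Y d φ) {p q : ℕ}
    (hq : (q : ℤ) = p + d) {z : X.Cycles} (hz : X.IsCyc p z) :
    ∃ w, Y.IsCyc q w ∧ W.cl Y w = φ (W.cl X z) := by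
  rcases h with ⟨r, hr, c, hc, rfl⟩ | ⟨_, rfl⟩
  · refine ⟨ops.push (Obj.snd X Y) (ops.mul c (ops.pull (Obj.fst X Y) z)), ?_, ?_⟩
    · have h1 := ops.mul_mem hc (ops.pull_mem (Obj.fst X Y) hz)
      exact ops.push_mem (Obj.snd X Y) h1 (by rw [dim_prod]; omega)
    · rw [corr_apply, W.cl_push, W.cl_mul, W.cl_pull]
  · exact ⟨0, SmVar.IsCyc.zero _ _, by rw [map_zero, LinearMap.zero_apply]⟩

section

variable (hG : S.IsCyc 1 G) (hE : Z.IsCyc 1 E)

include hG hE

/-- Algebraic classes in the fixed part extend to algebraic classes. -/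
theorem cyclesExtend (h : IsFibre Q i) {T : Module.End W.K (W.H Z)}
    (hT : InducesBaseLam (W.gr Z) Q.piece (hop W g G) T) (hTq : ROp W Z (-1) T) :
    CyclesExtend W i := by
  intro p z hz hzF
  obtain ⟨N, hN⟩ := push_map h
  have hTd : IsHom (W.gr Z) (-2) T := by
    have := rop_opAlg.hom hTq
    simpa using this
  have h1 : ROp W Z (-(S.dim : ℤ)) (T ^ S.dim) :=
    rop_opAlg.cast (rop_opAlg.pow hTq S.dim) (by ring)
  have h2 : QOp W F Z 0 ((N : W.K) • ((T ^ S.dim) ∘ₗ W.push i)) := by
    apply QOp.smul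
    have h3 := (rop_iff.1 h1).comp (qop_push (W := W) i)
    apply h3.cast
    have := h.dim_eq
    omega
  obtain ⟨w, hw, hw'⟩ := qop_cl h2 (q := p) (by simp) hz
  refine ⟨w, hw, ?_⟩
  obtain ⟨x, hx⟩ := hzF
  have hx' : W.map i x = W.cl F z := hx
  rw [hw', LinearMap.smul_apply, LinearMap.comp_apply, ← hx', ← map_smul, hN]
  exact map_base_inv hG hE h hT hTd x

/-- The operator Lambda on the fixed part is algebraic. -/
theorem exists_lam (h : IsFibre Q i) {T T' : Module.End W.K (W.H Z)}
    (hT : InducesBaseLam (W.gr Z) Q.piece (hop W g G) T) (hTq : ROp W Z (-1) T)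
    (hT' : InducesRelLam Q.piece Z.dim (eop W Z E) T') (hTq' : ROp W Z (-1) T') :
    ∃ Φ : Module.End W.K (W.H F), ROp W F (-1) Φ ∧
      IsLam (fun j => W.gr F j ⊓ fixedPart W i) F.dim
        (LinearMap.mulLeft W.K (W.cl F (ops.pull i E))) Φ ∧
      ∀ y, (∀ x, W.tr F (y * W.map i x) = 0) → Φ y = 0 := by
  obtain ⟨N, hN⟩ := push_map h
  have hhom : ∀ {T : Module.End W.K (W.H Z)}, ROp W Z (-1) T → IsHom (W.gr Z) (-2) T := by
    intro T hT
    have := rop_opAlg.hom hT
    simpa using this
  have h1 : ROp W Z (-1 + -(S.dim : ℤ)) (T' * T ^ S.dim) :=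
    rop_opAlg.mul hTq' (rop_opAlg.cast (rop_opAlg.pow hTq S.dim) (by ring))
  refine ⟨(N : W.K) • ((W.map i).toLinearMap ∘ₗ (T' * T ^ S.dim) ∘ₗ W.push i), ?_,
    isLam_fixed hG hE h hT (hhom hTq) hT' (hhom hTq') hN, ?_⟩
  · rw [rop_iff]
    apply QOp.smul
    have h3 := (qop_pull i).comp ((rop_iff.1 h1).comp (qop_push (W := W) i))
    apply h3.cast
    have := h.dim_eq
    omega
  · intro y hy
    rw [LinearMap.smul_apply, LinearMap.comp_apply, LinearMap.comp_apply, push_eq_zero hy, map_zero,
      map_zero, smul_zero]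

/-- The fixed part is nondegenerate. -/
lemma fixed_nondeg {θ : W.H F →ₗ[W.K] W.H F}
    (hθ : Transports (W.map i) (W.map i) (W.tr F) θ) :
    ∀ v ∈ fixedPart W i, (∀ x ∈ fixedPart W i, W.tr F (v * x) = 0) → v = 0 := by
  rintro v ⟨y, hy⟩ hv
  have hy' : W.map i y = v := hy
  rw [← hy', ← hθ.apply y, hy']
  exact hθ.orth v fun x => hv _ ⟨x, rfl⟩

omit hG in
/-- The Lefschetz operator preserves the orthogonal complement of the fixed part. -/
lemma mul_orth {y : W.H F} (hy : ∀ x, W.tr F (y * W.map i x) = 0) (x : W.H Z) :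
    W.tr F (W.cl F (ops.pull i E) * y * W.map i x) = 0 := by
  have h1 : W.cl F (ops.pull i E) * y = y * W.cl F (ops.pull i E) :=
    even_comm W (W.cl_mem (ops.pull_mem i hE)) y
  rw [h1, mul_assoc, W.cl_pull, ← map_mul]
  exact hy _

/-- **The fibres whose cohomology is constant below the middle degree.** -/
theorem isLam_of_constant {θ : W.H F →ₗ[W.K] W.H F}
    (hθ : Transports (W.map i) (W.map i) (W.tr F) θ) (hθd : IsHom (W.gr F) 0 θ)
    {Φ : Module.End W.K (W.H F)}
    (hΦ : IsLam (fun j => W.gr F j ⊓ fixedPart W i) F.dim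
        (LinearMap.mulLeft W.K (W.cl F (ops.pull i E))) Φ)
    (hΦ0 : ∀ y, (∀ x, W.tr F (y * W.map i x) = 0) → Φ y = 0)
    (hc : ConstantBelowMiddle W i) :
    IsLam (W.gr F) F.dim (LinearMap.mulLeft W.K (W.cl F (ops.pull i E))) Φ := by
  intro j hj a ha h0
  rcases lt_or_eq_of_le hj with hj | rfl
  · exact hΦ j hj.le a ⟨ha, hc j hj ha⟩ h0
  · refine ⟨?_, fun l hl => by omega⟩
    rw [Nat.sub_self, zero_add, pow_one, LinearMap.mulLeft_apply] at h0
    obtain ⟨v, hv, hva⟩ := exists_sub_orth (fixedPart W i) (fixed_nondeg hG hE hθ) a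
    have hy : ∀ x, W.tr F ((a - v) * W.map i x) = 0 := fun x => hva _ ⟨x, rfl⟩
    -- `v` is homogeneous
    have h1 : θ a = v := by
      have h2 : θ (a - v) = 0 := hθ.orth _ hy
      have h3 : θ v = v := by
        obtain ⟨x, hx⟩ := hv
        have hx' : W.map i x = v := hx
        rw [← hx', hθ.apply]
      rw [map_sub, h3, sub_eq_zero] at h2
      exact h2
    have hvd : v ∈ W.gr F F.dim := by
      have h2 := hθd F.dim a (by rw [grZ_natCast]; exact ha)
      rw [add_zero, grZ_natCast, h1] at h2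
      exact h2
    -- the complement is primitive
    have hLy : W.cl F (ops.pull i E) * (a - v) = 0 := by
      have hm : W.cl F (ops.pull i E) * (a - v) ∈ W.gr F (2 * 1 + F.dim) :=
        W.mul_mem (W.cl_mem (ops.pull_mem i hE)) (Submodule.sub_mem _ ha hvd)
      apply W.nondeg
      intro b
      refine gr_induction (W.isInternal F)
        (p := fun b => W.tr F (W.cl F (ops.pull i E) * (a - v) * b) = 0) ?_ ?_ b
      · intro l b hb
        by_cases hl : l < F.dim
        · obtain ⟨x, hx⟩ := hc l hl hb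
          have hx' : W.map i x = b := hx
          rw [← hx']
          exact mul_orth hE hy x
        · exact W.tr_eq_zero (W.mul_mem hm hb) (by omega)
      · intro b b' hb hb'
        rw [mul_add, map_add, hb, hb', add_zero]
    have h2 : W.cl F (ops.pull i E) * v = 0 := by
      have : a = (a - v) + v := by abel
      rw [this, mul_add, hLy, zero_add] at h0
      exact h0
    have h3 := (hΦ F.dim le_rfl v ⟨hvd, hv⟩ (by
      rw [Nat.sub_self, zero_add, pow_one, LinearMap.mulLeft_apply]; exact h2)).1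
    have h4 := hΦ0 (a - v) hy
    rwa [map_sub, h3, sub_zero] at h4

/-- Hard Lefschetz for the fibre. -/
theorem hardLefschetz_of_constant (h : IsFibre Q i) (hc : ConstantBelowMiddle W i) :
    HardLefschetz W F (ops.pull i E) := by
  have hS := setup Q hG hE rfl
  have hLh : IsHom (W.gr F) 2 (LinearMap.mulLeft W.K (W.cl F (ops.pull i E))) := by
    simpa using rop_opAlg.hom (rop_mulLeft (W := W) (ops.pull_mem i hE))
  have hinj : ∀ j ≤ F.dim, ∀ a ∈ W.gr F j,
      (LinearMap.mulLeft W.K (W.cl F (ops.pull i E)) ^ (F.dim - j)) a = 0 → a = 0 := by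
    intro j hj a ha h0
    rcases lt_or_eq_of_le hj with hj | rfl
    · obtain ⟨x, hxP, hxj, rfl⟩ := exists_lift hG hE h ha (hc j hj ha)
      have hdim := h.dim_eq
      rw [← map_top_pow hG hE h] at h0
      have h1 := map_inj_low hG hE h (pow_L_mem (hS.isHom_top) hxj (F.dim - j))
        (by have := top_pow_mem hS (F.dim - j) hxP
            rwa [show j + S.dim + 2 * (F.dim - j) = j + 2 * (F.dim - j) + S.dim by omega] at this)
        h0
      have h2 := (hS.rl (j + S.dim) (by omega)).1 x hxP
        (by rw [show Z.dim - (j + S.dim) = F.dim - j by omega]; exact h1)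
      rw [h2, map_zero]
    · simpa using h0
  intro j hj
  refine ⟨hinj j hj, ?_⟩
  -- surjectivity by counting dimensions
  have hmem : ∀ a ∈ W.gr F j, (LinearMap.mulLeft W.K (W.cl F (ops.pull i E)) ^ (F.dim - j)) a ∈
      W.gr F (2 * F.dim - j) := by
    intro a ha
    have := pow_L_mem hLh ha (F.dim - j)
    rwa [show j + 2 * (F.dim - j) = 2 * F.dim - j by omega] at this
  have hsurj : Function.Surjective
      ((LinearMap.mulLeft W.K (W.cl F (ops.pull i E)) ^ (F.dim - j)).restrict hmem) := by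
    refine (LinearMap.injective_iff_surjective_of_finrank_eq_finrank ?_).1 ?_
    · have := betti_symm (X := F) W (i := j) (by omega)
      exact this.symm
    · rw [injective_iff_map_eq_zero]
      intro a ha
      apply Subtype.ext
      apply hinj j hj a a.2
      exact congrArg Subtype.val ha
  intro b hb
  obtain ⟨a, ha⟩ := hsurj ⟨b, hb⟩
  exact ⟨a, a.2, congrArg Subtype.val ha⟩

end

end Pool.Agent.Y106.FP
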