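import Pool.Agent.Y106.FP.Main

/-!
# The operator Lambda on the fixed part
-/

open CategoryTheory AlgebraicGeometry

set_option linter.unusedSectionVars false

universe u v

namespace Pool.Agent.Y106.FP

open Pool.Agent.H914 Pool.Agent.H447 Pool.Agent.W498.Dom Pool.Agent.Y106.Fib Pool.Agent.Y140.Fib
  VarClass Obj WeilCohomology Pool.Agent.W534 Pool.Agent.W550.B

variable {k : Type u} [Field k] {𝒱 : VarClass k} {ops : CycleOps 𝒱}
  {W : WeilCohomology.{u, v} ops} {Z S F F' : 𝒱.Obj} {g : Z ⟶ S} {G : S.Cycles} {E : Z.Cycles}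
  {Q : PerverseDecomposition W g G E} {i : F ⟶ Z} {i' : F' ⟶ Z}

section

variable (hG : S.IsCyc 1 G) (hE : Z.IsCyc 1 E)

include hG hE

/-- The relative operator and the pull-back. -/
lemma map_rel (h : IsFibre Q i) {T T' : Module.End W.K (W.H Z)}
    (hT : InducesBaseLam (W.gr Z) Q.piece (hop W g G) T) (hTd : IsHom (W.gr Z) (-2) T)
    (hT' : InducesRelLam Q.piece Z.dim (eop W Z E) T') (hTd' : IsHom (W.gr Z) (-2) T')
    {j : ℕ} {x : W.H Z} (hx : x ∈ W.gr Z j) (hxP : x ∈ Q.piece (j + S.dim)) :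
    W.map i (T' ((T ^ S.dim) (fibreClass W g G * x))) =
      W.map i (lead (setup Q hG hE rfl).iP Z.dim (-2) T' x) := by
  have hS := setup Q hG hE rfl
  obtain ⟨h1, h2⟩ := base_inv hG hE hT hTd hx
  rw [proj_same Q.isInternal hxP] at h2
  have h3 := hT'.1 _ _ h2
  have h4 := lead_sub_mem hS.iP hS.bP hT'.1 hxP
  have h5 : T' ((T ^ S.dim) (fibreClass W g G * x)) - lead hS.iP Z.dim (-2) T' x ∈
      upTo Q.piece (((j + S.dim : ℕ) : ℤ) - 3) := by
    have e : T' ((T ^ S.dim) (fibreClass W g G * x)) - lead hS.iP Z.dim (-2) T' x =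
        T' ((T ^ S.dim) (fibreClass W g G * x) - x) + (T' x - lead hS.iP Z.dim (-2) T' x) := by
      rw [map_sub]; abel
    rw [e]
    exact Submodule.add_mem _ (upTo_mono (by omega) h3) (upTo_mono (by omega) h4)
  have h6 : T' ((T ^ S.dim) (fibreClass W g G * x)) ∈ grZ (W.gr Z) ((j : ℤ) + -2) :=
    hTd' _ _ (by rw [grZ_natCast]; exact h1)
  have h7 : lead hS.iP Z.dim (-2) T' x ∈ grZ (W.gr Z) ((j : ℤ) + -2) :=
    isHom_gr_lead hS hTd' _ _ (by rw [grZ_natCast]; exact hx)
  rw [← sub_eq_zero, ← map_sub]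
  by_cases hj : 2 ≤ j
  · rw [show (j : ℤ) + -2 = ((j - 2 : ℕ) : ℤ) by omega, grZ_natCast] at h6 h7
    exact map_upTo hG hE h (Submodule.sub_mem _ h6 h7) h5 (by omega)
  · rw [grZ_of_neg (by omega)] at h6 h7
    rw [(Submodule.mem_bot _).1 h6, (Submodule.mem_bot _).1 h7, sub_zero, map_zero]

lemma map_top (h : IsFibre Q i) (x : W.H Z) :
    W.map i (top (setup Q hG hE rfl).iP Z.dim (eop W Z E) x) =
      W.cl F (ops.pull i E) * W.map i x := by
  have h1 := h.restriction.ρ_top hG hE x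
  rw [W.cl_pull]
  exact h1

lemma map_top_pow (h : IsFibre Q i) (k : ℕ) (x : W.H Z) :
    W.map i ((top (setup Q hG hE rfl).iP Z.dim (eop W Z E) ^ k) x) =
      (LinearMap.mulLeft W.K (W.cl F (ops.pull i E)) ^ k) (W.map i x) := by
  induction k with
  | zero => simp
  | succ k ih =>
    rw [pow_succ', pow_succ', Module.End.mul_apply, Module.End.mul_apply, map_top hG hE h, ih,
      LinearMap.mulLeft_apply]

/-- The operator Lambda on the fixed part. -/
theorem isLam_fixed (h : IsFibre Q i) {T T' : Module.End W.K (W.H Z)}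
    (hT : InducesBaseLam (W.gr Z) Q.piece (hop W g G) T) (hTd : IsHom (W.gr Z) (-2) T)
    (hT' : InducesRelLam Q.piece Z.dim (eop W Z E) T') (hTd' : IsHom (W.gr Z) (-2) T')
    {c : W.K} (hN : ∀ x : W.H Z, c • W.push i (W.map i x) = fibreClass W g G * x) :
    IsLam (fun j => W.gr F j ⊓ fixedPart W i) F.dim
      (LinearMap.mulLeft W.K (W.cl F (ops.pull i E)))
      (c • ((W.map i).toLinearMap ∘ₗ (T' * T ^ S.dim) ∘ₗ W.push i)) := by
  have hS := setup Q hG hE rfl
  set e' := top hS.iP Z.dim (eop W Z E) with he'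
  have hLam := isLam_of_inducesRelLam hS hT'
  rintro j hj a ⟨haj, haF⟩ ha0
  obtain ⟨x, hxP, hxj, rfl⟩ := exists_lift hG hE h haj haF
  have hdim := h.dim_eq
  have hmem : ∀ l, (e' ^ l) x ∈ Q.piece (j + 2 * l + S.dim) ∧ (e' ^ l) x ∈ W.gr Z (j + 2 * l) := by
    intro l
    constructor
    · have := top_pow_mem hS l hxP
      rwa [show j + S.dim + 2 * l = j + 2 * l + S.dim by omega] at this
    · exact pow_L_mem (hS.isHom_top) hxj l
  have h0 : (e' ^ (F.dim - j + 1)) x = 0 := by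
    refine map_inj_low hG hE h (hmem _).2 (hmem _).1 ?_
    rw [he', map_top_pow hG hE h]
    exact ha0
  obtain ⟨l1, l2⟩ := hLam (j + S.dim) (by omega) x hxP
    (by rw [show Z.dim - (j + S.dim) + 1 = F.dim - j + 1 by omega]; exact h0)
  have key : ∀ y, (c • ((W.map i).toLinearMap ∘ₗ (T' * T ^ S.dim) ∘ₗ W.push i)) (W.map i y) =
      W.map i (T' ((T ^ S.dim) (fibreClass W g G * y))) := by
    intro y
    rw [← hN y, LinearMap.smul_apply, LinearMap.comp_apply, LinearMap.comp_apply,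
      Module.End.mul_apply, map_smul, map_smul, AlgHom.toLinearMap_apply, map_smul]
  constructor
  · rw [key, map_rel hG hE h hT hTd hT' hTd' hxj hxP, l1, map_zero]
  · intro l hl
    have hl' := hmem (l + 1)
    rw [← map_top_pow hG hE h (l + 1) x, ← map_top_pow hG hE h l x, key,
      map_rel hG hE h hT hTd hT' hTd' hl'.2 hl'.1, l2 l (by omega)]

end

end Pool.Agent.Y106.FP
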